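import Pool.Agent.Helper17.QD.Glue
import Pool.Agent.Helper68.QC.Cal

/-!
Project QD, glue, module QIN: inverse and complex conjugate of a quasiconformal diffeomorphism of
the disc.
-/

set_option autoImplicit false

open Filter Topology Matrix Set Metric MeasureTheory
open scoped ComplexConjugate ComplexOrder ENNReal

namespace Pool.Agent.Helper60.QL

open Pool.Agent.Helper17.QD Pool.Agent.Helper35.PM
open Pool.Agent.Helper68.QC (nq Bel InvB Intw lin dz_of_has has_lin dz_comp dzb_comp det_fderiv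
  dz_id dzb_id lin_apply)
open Pool.Agent.Helper20.QD (Fuch cj IsSU D DD SS dz dzb mob den)

private theorem dz_eq (f : ℂ → ℂ) (z : ℂ) : dz f z = Pool.Agent.Helper68.QC.dz f z := rfl

private theorem dzb_eq (f : ℂ → ℂ) (z : ℂ) : dzb f z = Pool.Agent.Helper68.QC.dzb f z := rfl

private theorem mob_cc {Γ : Type} [Group Γ] (σ : Γ →* SL) (γ : Γ) (z : ℂ) :
    mob (cc σ γ) z = conj (mob (σ γ) (conj z)) := by
  simp [mob, cc, map_div₀]

private theorem conj_ball {z : ℂ} : conj z ∈ D ↔ z ∈ D := by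
  simp

private theorem conj_cball {z : ℂ} : conj z ∈ DD ↔ z ∈ DD := by
  simp

private theorem conj_sph {z : ℂ} : conj z ∈ SS ↔ z ∈ SS := by
  simp

private theorem bij_conj {S : Set ℂ} (hS : ∀ z : ℂ, conj z ∈ S ↔ z ∈ S) {E : ℂ → ℂ}
    (h : BijOn E S S) : BijOn (fun z => conj (E (conj z))) S S := by
  refine ⟨?_, ?_, ?_⟩
  · intro z hz
    exact (hS _).2 (h.mapsTo ((hS z).2 hz))
  · intro z hz w hw hzw
    have h1 : E (conj z) = E (conj w) := (starRingEnd ℂ).injective hzw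
    have h2 := h.injOn ((hS z).2 hz) ((hS w).2 hw) h1
    exact (starRingEnd ℂ).injective h2
  · intro y hy
    obtain ⟨x, hx, hxy⟩ := h.surjOn ((hS y).2 hy)
    refine ⟨conj x, (hS x).2 hx, ?_⟩
    simp only [Complex.conj_conj, hxy]

private theorem qin2 {k : ℝ} {E : ℂ → ℂ} (hE : QcE k E) :
    QcE k (fun z => conj (E (conj z))) := by
  refine ⟨?_, bij_conj (fun z => conj_ball) hE.bij, bij_conj (fun z => conj_sph) hE.bijS, ?_, ?_⟩
  · exact Complex.continuous_conj.comp_continuousOn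
      (hE.cont.comp Complex.continuous_conj.continuousOn (fun z hz => conj_cball.2 hz))
  · have h1 : ContDiffOn ℝ 1 (fun z : ℂ => E (conj z)) D :=
      hE.c1.comp (Complex.conjCLE.contDiff.contDiffOn) (fun z hz => conj_ball.2 hz)
    exact Complex.conjCLE.contDiff.comp_contDiffOn h1
  · intro z hz
    have hz' : conj z ∈ D := conj_ball.2 hz
    have hd : DifferentiableAt ℝ E (conj z) :=
      (hE.c1.contDiffAt (isOpen_ball.mem_nhds hz')).differentiableAt (by simp)
    have h1 : HasFDerivAt (fun z : ℂ => E (conj z))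
        ((lin (Pool.Agent.Helper68.QC.dz E (conj z)) (Pool.Agent.Helper68.QC.dzb E (conj z))).comp
          (Complex.conjCLE : ℂ →L[ℝ] ℂ)) z :=
      HasFDerivAt.comp z (f := fun z : ℂ => conj z) (has_lin hd) Complex.conjCLE.hasFDerivAt
    have h2 : HasFDerivAt (fun z : ℂ => conj (E (conj z)))
        ((Complex.conjCLE : ℂ →L[ℝ] ℂ).comp
          ((lin (Pool.Agent.Helper68.QC.dz E (conj z))
            (Pool.Agent.Helper68.QC.dzb E (conj z))).comp
          (Complex.conjCLE : ℂ →L[ℝ] ℂ))) z :=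
      HasFDerivAt.comp z (g := fun z : ℂ => conj z) Complex.conjCLE.hasFDerivAt h1
    have h3 : HasFDerivAt (fun z : ℂ => conj (E (conj z)))
        (lin (conj (Pool.Agent.Helper68.QC.dz E (conj z)))
          (conj (Pool.Agent.Helper68.QC.dzb E (conj z)))) z := by
      refine h2.congr_fderiv (ContinuousLinearMap.ext fun v => ?_)
      simp
    obtain ⟨h4, h5⟩ := dz_of_has h3
    rw [dz_eq, dzb_eq, h4, h5]
    obtain ⟨h6, h7⟩ := hE.dil _ hz'
    rw [dz_eq] at h6 h7
    rw [dzb_eq] at h7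
    refine ⟨?_, ?_⟩
    · intro h0
      exact h6 ((map_eq_zero (starRingEnd ℂ)).1 h0)
    · rw [RCLike.norm_conj, RCLike.norm_conj]
      exact h7

private theorem bijDD {k : ℝ} {E : ℂ → ℂ} (hE : QcE k E) : BijOn E DD DD := by
  have hu : (DD : Set ℂ) = D ∪ SS := (ball_union_sphere (x := (0 : ℂ)) (ε := 1)).symm
  rw [hu]
  refine hE.bij.union hE.bijS ?_
  intro x hx y hy hxy
  have hdis : ∀ {u v : ℂ}, u ∈ D → v ∈ SS → u ≠ v := by
    intro u v hu hv huv
    rw [mem_ball_zero_iff] at hu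
    rw [mem_sphere_zero_iff_norm] at hv
    rw [huv, hv] at hu
    exact lt_irrefl _ hu
  rcases hx with hx | hx <;> rcases hy with hy | hy
  · exact hE.bij.injOn hx hy hxy
  · exact absurd hxy (hdis (hE.bij.mapsTo hx) (hE.bijS.mapsTo hy))
  · exact absurd hxy.symm (hdis (hE.bij.mapsTo hy) (hE.bijS.mapsTo hx))
  · exact hE.bijS.injOn hx hy hxy

private theorem qin1 {k : ℝ} {E : ℂ → ℂ} (hk : k < 1) (hE : QcE k E) :
    ∃ E' : ℂ → ℂ, QcE k E' ∧ ∀ z ∈ DD, E' z ∈ DD ∧ E' (E z) = z ∧ E (E' z) = z := by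
  have hB := bijDD hE
  set E' : ℂ → ℂ := Function.invFunOn E DD with hE'
  have hm : ∀ y ∈ DD, E' y ∈ DD := fun y hy => Function.invFunOn_mem (hB.surjOn hy)
  have hr : ∀ y ∈ DD, E (E' y) = y := fun y hy => Function.invFunOn_eq (hB.surjOn hy)
  have hl : ∀ z ∈ DD, E' (E z) = z := fun z hz =>
    hB.injOn (hm _ (hB.mapsTo hz)) hz (hr _ (hB.mapsTo hz))
  have hsub : ∀ {S : Set ℂ}, S ⊆ DD → BijOn E S S → BijOn E' S S := by
    intro S hS h
    refine ⟨?_, ?_, ?_⟩
    · intro y hy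
      obtain ⟨x, hx, rfl⟩ := h.surjOn hy
      rw [hl x (hS hx)]
      exact hx
    · intro y hy y' hy' hyy
      rw [← hr y (hS hy), ← hr y' (hS hy'), hyy]
    · intro x hx
      exact ⟨E x, h.mapsTo hx, hl x (hS hx)⟩
  have hcont : ContinuousOn E' DD := by
    rw [continuousOn_iff_isClosed]
    intro t ht
    have hK : IsCompact (t ∩ DD) := (isCompact_closedBall (0 : ℂ) 1).inter_left ht
    refine ⟨E '' (t ∩ DD), (hK.image_of_continuousOn
      (hE.cont.mono inter_subset_right)).isClosed, ?_⟩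
    ext y
    constructor
    · rintro ⟨h1, h2⟩
      exact ⟨⟨E' y, ⟨h1, hm y h2⟩, hr y h2⟩, h2⟩
    · rintro ⟨⟨x, ⟨hx1, hx2⟩, rfl⟩, h2⟩
      refine ⟨?_, h2⟩
      change E' (E x) ∈ t
      rw [hl x hx2]
      exact hx1
  have hcd : ∀ z ∈ D, ContDiffAt ℝ 1 E z := fun z hz => hE.c1.contDiffAt (isOpen_ball.mem_nhds hz)
  have hdf : ∀ z ∈ D, DifferentiableAt ℝ E z := fun z hz => (hcd z hz).differentiableAt (by simp)
  have hdet : ∀ z ∈ D, (fderiv ℝ E z).det ≠ 0 := by
    intro z hz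
    rw [det_fderiv]
    obtain ⟨h1, h2⟩ := hE.dil z hz
    rw [dz_eq] at h1 h2
    rw [dzb_eq] at h2
    have h3 : 0 < ‖Pool.Agent.Helper68.QC.dz E z‖ := norm_pos_iff.2 h1
    have h4 := norm_nonneg (Pool.Agent.Helper68.QC.dzb E z)
    have h5 : ‖Pool.Agent.Helper68.QC.dzb E z‖ < ‖Pool.Agent.Helper68.QC.dz E z‖ := by nlinarith
    nlinarith
  have hD : (D : Set ℂ) ⊆ DD := ball_subset_closedBall
  have hsm : ∀ z ∈ D, ContDiffAt ℝ 1 E' (E z) := by
    intro z hz
    have hf' : HasFDerivAt E ((ContinuousLinearMap.toContinuousLinearEquivOfDetNeZero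
        (fderiv ℝ E z) (hdet z hz) : ℂ ≃L[ℝ] ℂ) : ℂ →L[ℝ] ℂ) z := by
      rw [ContinuousLinearMap.coe_toContinuousLinearEquivOfDetNeZero]
      exact (hdf z hz).hasFDerivAt
    have h1 := (hcd z hz).to_localInverse hf' (by simp)
    refine h1.congr_of_eventuallyEq ?_
    have h2 := ((hcd z hz).hasStrictFDerivAt' hf' (by simp)).eventually_left_inverse
    have hzD : E z ∈ D := hE.bij.mapsTo hz
    have hc : ContinuousAt E' (E z) :=
      hcont.continuousAt (Filter.mem_of_superset (isOpen_ball.mem_nhds hzD) hD)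
    have hc' : Tendsto E' (𝓝 (E z)) (𝓝 z) := by
      have := hc.tendsto
      rwa [hl z (hD hz)] at this
    filter_upwards [hc'.eventually h2, isOpen_ball.mem_nhds hzD] with y hy hyD
    rw [hr y (hD hyD)] at hy
    exact hy.symm
  have key : ∀ z ∈ D, Pool.Agent.Helper68.QC.dz E' (E z) * Pool.Agent.Helper68.QC.dz E z
        + Pool.Agent.Helper68.QC.dzb E' (E z) * conj (Pool.Agent.Helper68.QC.dzb E z) = 1 ∧
      Pool.Agent.Helper68.QC.dz E' (E z) * Pool.Agent.Helper68.QC.dzb E z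
        + Pool.Agent.Helper68.QC.dzb E' (E z) * conj (Pool.Agent.Helper68.QC.dz E z) = 0 := by
    intro z hz
    have hd : DifferentiableAt ℝ E' (E z) := (hsm z hz).differentiableAt (by simp)
    have hid : (fun x => E' (E x)) =ᶠ[𝓝 z] fun x => x := by
      filter_upwards [isOpen_ball.mem_nhds hz] with x hx
      exact hl x (hD hx)
    have hfd : fderiv ℝ (fun x => E' (E x)) z = fderiv ℝ (fun x : ℂ => x) z := hid.fderiv_eq
    refine ⟨?_, ?_⟩
    · rw [← dz_comp hd (hdf z hz)]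
      have : Pool.Agent.Helper68.QC.dz (fun x => E' (E x)) z
          = Pool.Agent.Helper68.QC.dz (fun x : ℂ => x) z := by
        unfold Pool.Agent.Helper68.QC.dz
        rw [hfd]
      rw [this, dz_id]
    · rw [← dzb_comp hd (hdf z hz)]
      have : Pool.Agent.Helper68.QC.dzb (fun x => E' (E x)) z
          = Pool.Agent.Helper68.QC.dzb (fun x : ℂ => x) z := by
        unfold Pool.Agent.Helper68.QC.dzb
        rw [hfd]
      rw [this, dzb_id]
  have main : ∀ z ∈ D, Pool.Agent.Helper68.QC.dz E' (E z) ≠ 0 ∧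
      ‖Pool.Agent.Helper68.QC.dzb E' (E z)‖ ≤ k * ‖Pool.Agent.Helper68.QC.dz E' (E z)‖ := by
    intro z hz
    obtain ⟨h1, h2⟩ := key z hz
    obtain ⟨hne, hle⟩ := hE.dil z hz
    rw [dz_eq] at hne hle
    rw [dzb_eq] at hle
    have ha : 0 < ‖Pool.Agent.Helper68.QC.dz E z‖ := norm_pos_iff.2 hne
    have h3 : ‖Pool.Agent.Helper68.QC.dzb E' (E z)‖ * ‖Pool.Agent.Helper68.QC.dz E z‖
        = ‖Pool.Agent.Helper68.QC.dz E' (E z)‖ * ‖Pool.Agent.Helper68.QC.dzb E z‖ := by
      have h4 : Pool.Agent.Helper68.QC.dzb E' (E z) * conj (Pool.Agent.Helper68.QC.dz E z)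
          = -(Pool.Agent.Helper68.QC.dz E' (E z) * Pool.Agent.Helper68.QC.dzb E z) := by
        linear_combination h2
      have h5 := congrArg norm h4
      rw [norm_neg, norm_mul, norm_mul, RCLike.norm_conj] at h5
      exact h5
    refine ⟨?_, ?_⟩
    · intro h0
      rw [h0, norm_zero, zero_mul] at h3
      have h4 : Pool.Agent.Helper68.QC.dzb E' (E z) = 0 := by
        rcases mul_eq_zero.1 h3 with h | h
        · exact norm_eq_zero.1 h
        · exact absurd h ha.ne'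
      rw [h0, h4] at h1
      simp at h1
    · have h5 := norm_nonneg (Pool.Agent.Helper68.QC.dz E' (E z))
      have h6 : ‖Pool.Agent.Helper68.QC.dzb E' (E z)‖ * ‖Pool.Agent.Helper68.QC.dz E z‖
          ≤ k * ‖Pool.Agent.Helper68.QC.dz E' (E z)‖ * ‖Pool.Agent.Helper68.QC.dz E z‖ := by
        rw [h3]
        nlinarith [mul_le_mul_of_nonneg_left hle h5]
      exact le_of_mul_le_mul_right h6 ha
  refine ⟨E', ⟨hcont, hsub hD hE.bij, hsub sphere_subset_closedBall hE.bijS, ?_, ?_⟩,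
    fun z hz => ⟨hm z hz, hl z hz, hr z hz⟩⟩
  · intro y hy
    obtain ⟨x, hx, rfl⟩ := hE.bij.surjOn hy
    exact (hsm x hx).contDiffWithinAt
  · intro y hy
    obtain ⟨x, hx, rfl⟩ := hE.bij.surjOn hy
    exact main x hx

theorem hQIN (hSUB : Pool.Agent.Helper20.QD.StSUB) : StQIN := by
  intro k E hk hE
  refine ⟨?_, qin2 hE, ?_⟩
  · obtain ⟨E', hE', h⟩ := qin1 hk hE
    refine ⟨E', hE', fun z hz => (h z hz).2, ?_⟩
    intro Γ _ σ τ hσ _ hC γ y hy
    obtain ⟨hyD, -, h3⟩ := h y hy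
    have hmap : mob (σ γ) (E' y) ∈ DD := by
      obtain ⟨-, -, hb, hs, -⟩ := hSUB.1 (σ γ) (hσ.su γ)
      have hu : (DD : Set ℂ) = D ∪ SS := (ball_union_sphere (x := (0 : ℂ)) (ε := 1)).symm
      rw [hu] at hyD ⊢
      rcases hyD with hyD | hyD
      · exact Or.inl (hb.mapsTo hyD)
      · exact Or.inr (hs.mapsTo hyD)
    have h4 := hC γ (E' y) hyD
    rw [h3] at h4
    rw [← h4]
    exact (h _ hmap).2.1
  · intro Γ _ σ τ hC γ z hz
    have hz' : conj z ∈ DD := conj_cball.2 hz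
    have h1 := hC γ (conj z) hz'
    dsimp only
    rw [mob_cc, mob_cc, Complex.conj_conj, Complex.conj_conj, h1]

end Pool.Agent.Helper60.QL
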